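import Mathlib
import Pool.Agent.H77.TF.Def
import Pool.Agent.H77.TF.Def3

/-!
# MR3: the homogeneous polynomials which vanish on `K ^ 3`
-/

set_option autoImplicit false

open MvPolynomial

namespace Pool.Agent.H6.TC

open Pool.Agent.H77.TF

noncomputable section

variable {K : Type} [Field K]

/-- the monomial with exponents `a`, `b`, `c` -/
def mon (K : Type) [Field K] (a b c : ℕ) : MvPolynomial (Fin 3) K := X 0 ^ a * X 1 ^ b * X 2 ^ c

theorem mon_eq (s : Fin 3 →₀ ℕ) : mon K (s 0) (s 1) (s 2) = monomial s 1 := by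
  rw [monomial_eq, C_1, one_mul, Finsupp.prod_fintype _ _ fun i => pow_zero _, Fin.prod_univ_three]
  rfl

theorem mon_hom (a b c : ℕ) : (mon K a b c).IsHomogeneous (a + b + c) := by
  have h : ∀ (i : Fin 3) (n : ℕ), (X i ^ n : MvPolynomial (Fin 3) K).IsHomogeneous n := by
    intro i n
    have := (isHomogeneous_X K i).pow n
    rwa [one_mul] at this
  exact ((h 0 a).mul (h 1 b)).mul (h 2 c)

/-- the normal monomials -/
def Nrm (q a b c : ℕ) : Prop := ((b ≠ 0 ∨ c ≠ 0) → a < q) ∧ (c ≠ 0 → b < q)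

theorem D3_eq [Fintype K] (v : Fin 3 → MvPolynomial (Fin 3) K) :
    D3 v = v 0 * (X 1 * X 2 ^ Fintype.card K - X 2 * X 1 ^ Fintype.card K) -
      v 1 * (X 0 * X 2 ^ Fintype.card K - X 2 * X 0 ^ Fintype.card K) +
      v 2 * (X 0 * X 1 ^ Fintype.card K - X 1 * X 0 ^ Fintype.card K) := by
  unfold D3 frob
  rw [Matrix.det_fin_three]
  show X 0 ^ (Fintype.card K ^ 0) * X 1 ^ (Fintype.card K ^ 1) * v 2 -
    X 0 ^ (Fintype.card K ^ 0) * X 2 ^ (Fintype.card K ^ 1) * v 1 -
    X 1 ^ (Fintype.card K ^ 0) * X 0 ^ (Fintype.card K ^ 1) * v 2 +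
    X 1 ^ (Fintype.card K ^ 0) * X 2 ^ (Fintype.card K ^ 1) * v 0 +
    X 2 ^ (Fintype.card K ^ 0) * X 0 ^ (Fintype.card K ^ 1) * v 1 -
    X 2 ^ (Fintype.card K ^ 0) * X 1 ^ (Fintype.card K ^ 1) * v 0 = _
  rw [pow_zero, pow_one]
  ring

theorem D3_add [Fintype K] (v w : Fin 3 → MvPolynomial (Fin 3) K) :
    D3 (v + w) = D3 v + D3 w := by
  rw [D3_eq, D3_eq, D3_eq]
  simp only [Pi.add_apply]
  ring

theorem D3_zero [Fintype K] : D3 (0 : Fin 3 → MvPolynomial (Fin 3) K) = 0 := by
  rw [D3_eq]
  simp only [Pi.zero_apply]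
  ring

theorem D3_smul [Fintype K] (f : MvPolynomial (Fin 3) K) (v : Fin 3 → MvPolynomial (Fin 3) K) :
    D3 (f • v) = f * D3 v := by
  rw [D3_eq, D3_eq]
  simp only [Pi.smul_apply, smul_eq_mul]
  ring

theorem D3_sum [Fintype K] {β : Type} (t : Finset β) (v : β → Fin 3 → MvPolynomial (Fin 3) K) :
    D3 (∑ i ∈ t, v i) = ∑ i ∈ t, D3 (v i) := by
  classical
  induction t using Finset.induction_on with
  | empty => rw [Finset.sum_empty, Finset.sum_empty, D3_zero]
  | insert i t hi ih => rw [Finset.sum_insert hi, Finset.sum_insert hi, D3_add, ih]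

theorem D3_hom [Fintype K] (v : Fin 3 → MvPolynomial (Fin 3) K) (e : ℕ)
    (h : ∀ i, (v i).IsHomogeneous e) : (D3 v).IsHomogeneous (e + (Fintype.card K + 1)) := by
  have h1 : ∀ i j : Fin 3, (X i * X j ^ Fintype.card K : MvPolynomial (Fin 3) K).IsHomogeneous
      (Fintype.card K + 1) := by
    intro i j
    have h2 := (isHomogeneous_X K j).pow (Fintype.card K)
    rw [one_mul] at h2
    have h3 := (isHomogeneous_X K i).mul h2
    rwa [add_comm] at h3
  have h2 : ∀ i j k l m : Fin 3, (v i * (X j * X k ^ Fintype.card K - X l * X m ^ Fintype.card K)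
      : MvPolynomial (Fin 3) K).IsHomogeneous (e + (Fintype.card K + 1)) := fun i j k l m =>
    (h i).mul ((h1 j k).sub (h1 l m))
  rw [D3_eq]
  exact ((h2 _ _ _ _ _).sub (h2 _ _ _ _ _)).add (h2 _ _ _ _ _)

theorem D3_eval [Fintype K] (v : Fin 3 → MvPolynomial (Fin 3) K) (x : Fin 3 → K) :
    eval x (D3 v) = 0 := by
  rw [D3_eq]
  simp only [map_add, map_sub, map_mul, map_pow, eval_X, FiniteField.pow_card]
  ring

theorem red [Fintype K] : ∀ (n a b c : ℕ), 2 * a + b ≤ n →
    ∃ (v : Fin 3 → MvPolynomial (Fin 3) K) (a' b' c' : ℕ),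
      (∀ i, (v i).IsHomogeneous (a + b + c - (Fintype.card K + 1))) ∧ a' + b' + c' = a + b + c ∧
      Nrm (Fintype.card K) a' b' c' ∧ mon K a b c = D3 v + mon K a' b' c' := by
  have hq : 2 ≤ Fintype.card K := Fintype.one_lt_card
  intro n
  induction n using Nat.strong_induction_on with
  | _ n ih =>
  intro a b c hn
  by_cases h1 : Fintype.card K ≤ a ∧ 1 ≤ b
  · obtain ⟨a1, rfl⟩ := Nat.exists_eq_add_of_le h1.1
    obtain ⟨b1, rfl⟩ := Nat.exists_eq_add_of_le h1.2
    obtain ⟨v, a', b', c', hv, hd, hN, he⟩ := ih (2 * (a1 + 1) + (b1 + Fintype.card K)) (by omega)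
      (a1 + 1) (b1 + Fintype.card K) c le_rfl
    refine ⟨v + ![0, 0, - mon K a1 b1 c], a', b', c', ?_, by omega, hN, ?_⟩
    · intro i
      have e1 : a1 + 1 + (b1 + Fintype.card K) + c - (Fintype.card K + 1) =
        Fintype.card K + a1 + (1 + b1) + c - (Fintype.card K + 1) := by omega
      rw [e1] at hv
      refine (hv i).add ?_
      have e2 : Fintype.card K + a1 + (1 + b1) + c - (Fintype.card K + 1) = a1 + b1 + c := by omega
      rw [e2]
      fin_cases i
      · exact isHomogeneous_zero _ _ _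
      · exact isHomogeneous_zero _ _ _
      · exact (mon_hom a1 b1 c).neg
    · have e3 : mon K (Fintype.card K + a1) (1 + b1) c =
          mon K (a1 + 1) (b1 + Fintype.card K) c -
            mon K a1 b1 c * (X 0 * X 1 ^ Fintype.card K - X 1 * X 0 ^ Fintype.card K) := by
        unfold mon
        ring
      rw [e3, he, D3_add, D3_eq (![0, 0, - mon K a1 b1 c])]
      simp only [Matrix.cons_val_zero, Matrix.cons_val_one, Matrix.cons_val]
      ring
  by_cases h2 : Fintype.card K ≤ a ∧ 1 ≤ c
  · obtain ⟨a1, rfl⟩ := Nat.exists_eq_add_of_le h2.1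
    obtain ⟨c1, rfl⟩ := Nat.exists_eq_add_of_le h2.2
    obtain ⟨v, a', b', c', hv, hd, hN, he⟩ := ih (2 * (a1 + 1) + b) (by omega)
      (a1 + 1) b (c1 + Fintype.card K) le_rfl
    refine ⟨v + ![0, mon K a1 b c1, 0], a', b', c', ?_, by omega, hN, ?_⟩
    · intro i
      have e1 : a1 + 1 + b + (c1 + Fintype.card K) - (Fintype.card K + 1) =
        Fintype.card K + a1 + b + (1 + c1) - (Fintype.card K + 1) := by omega
      rw [e1] at hv
      refine (hv i).add ?_
      have e2 : Fintype.card K + a1 + b + (1 + c1) - (Fintype.card K + 1) = a1 + b + c1 := by omega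
      rw [e2]
      fin_cases i
      · exact isHomogeneous_zero _ _ _
      · exact mon_hom a1 b c1
      · exact isHomogeneous_zero _ _ _
    · have e3 : mon K (Fintype.card K + a1) b (1 + c1) =
          mon K (a1 + 1) b (c1 + Fintype.card K) -
            mon K a1 b c1 * (X 0 * X 2 ^ Fintype.card K - X 2 * X 0 ^ Fintype.card K) := by
        unfold mon
        ring
      rw [e3, he, D3_add, D3_eq (![0, mon K a1 b c1, 0])]
      simp only [Matrix.cons_val_zero, Matrix.cons_val_one, Matrix.cons_val]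
      ring
  by_cases h3 : Fintype.card K ≤ b ∧ 1 ≤ c
  · obtain ⟨b1, rfl⟩ := Nat.exists_eq_add_of_le h3.1
    obtain ⟨c1, rfl⟩ := Nat.exists_eq_add_of_le h3.2
    obtain ⟨v, a', b', c', hv, hd, hN, he⟩ := ih (2 * a + (b1 + 1)) (by omega)
      a (b1 + 1) (c1 + Fintype.card K) le_rfl
    refine ⟨v + ![- mon K a b1 c1, 0, 0], a', b', c', ?_, by omega, hN, ?_⟩
    · intro i
      have e1 : a + (b1 + 1) + (c1 + Fintype.card K) - (Fintype.card K + 1) =
        a + (Fintype.card K + b1) + (1 + c1) - (Fintype.card K + 1) := by omega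
      rw [e1] at hv
      refine (hv i).add ?_
      have e2 : a + (Fintype.card K + b1) + (1 + c1) - (Fintype.card K + 1) = a + b1 + c1 := by
        omega
      rw [e2]
      fin_cases i
      · exact (mon_hom a b1 c1).neg
      · exact isHomogeneous_zero _ _ _
      · exact isHomogeneous_zero _ _ _
    · have e3 : mon K a (Fintype.card K + b1) (1 + c1) =
          mon K a (b1 + 1) (c1 + Fintype.card K) -
            mon K a b1 c1 * (X 1 * X 2 ^ Fintype.card K - X 2 * X 1 ^ Fintype.card K) := by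
        unfold mon
        ring
      rw [e3, he, D3_add, D3_eq (![- mon K a b1 c1, 0, 0])]
      simp only [Matrix.cons_val_zero, Matrix.cons_val_one, Matrix.cons_val]
      ring
  refine ⟨0, a, b, c, fun i => isHomogeneous_zero _ _ _, rfl, ?_, ?_⟩
  · unfold Nrm
    omega
  · rw [D3_zero, zero_add]

/-- a polynomial function of degree less than `q` which vanishes on `K` -/
theorem uni [Fintype K] (f : ℕ → K)
    (h : ∀ x : K, ∑ a ∈ Finset.range (Fintype.card K), f a * x ^ a = 0) :
    ∀ a < Fintype.card K, f a = 0 := by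
  classical
  let P : Polynomial K := ∑ a ∈ Finset.range (Fintype.card K), Polynomial.monomial a (f a)
  have hdeg : P.degree < Fintype.card K := by
    refine lt_of_le_of_lt (Polynomial.degree_sum_le _ _) ?_
    rw [Finset.sup_lt_iff (WithBot.bot_lt_coe _)]
    intro a ha
    refine lt_of_le_of_lt (Polynomial.degree_monomial_le _ _) ?_
    exact_mod_cast Finset.mem_range.1 ha
  have hP : P = 0 := by
    refine Polynomial.eq_zero_of_degree_lt_of_eval_finset_eq_zero Finset.univ
      (by rw [Finset.card_univ]; exact hdeg) ?_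
    intro x _
    show Polynomial.eval x (∑ a ∈ Finset.range (Fintype.card K), Polynomial.monomial a (f a)) = 0
    rw [Polynomial.eval_finset_sum, ← h x]
    exact Finset.sum_congr rfl fun a _ => Polynomial.eval_monomial
  intro a ha
  have h1 : P.coeff a = f a := by
    show (∑ a ∈ Finset.range (Fintype.card K), Polynomial.monomial a (f a)).coeff a = f a
    rw [Polynomial.finset_sum_coeff, Finset.sum_eq_single a]
    · rw [Polynomial.coeff_monomial, if_pos rfl]
    · intro b _ hb
      rw [Polynomial.coeff_monomial, if_neg hb]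
    · intro hb
      exact absurd (Finset.mem_range.2 ha) hb
  rw [← h1, hP, Polynomial.coeff_zero]

/-- a family of exponents and coefficients, read at the first variable -/
theorem uni_fin [Fintype K] {β : Type} (T : Finset β) (w : β → K) (e : β → ℕ)
    (he : ∀ s ∈ T, e s < Fintype.card K) (h : ∀ x : K, ∑ s ∈ T, w s * x ^ e s = 0) (a : ℕ)
    (ha : a < Fintype.card K) : ∑ s ∈ T.filter (fun s => e s = a), w s = 0 := by
  classical
  refine uni (fun a => ∑ s ∈ T.filter (fun s => e s = a), w s) ?_ a ha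
  intro x
  rw [← h x, ← Finset.sum_fiberwise_of_maps_to (g := e) (t := Finset.range (Fintype.card K))
    (fun s hs => Finset.mem_range.2 (he s hs))]
  refine Finset.sum_congr rfl fun a _ => ?_
  rw [Finset.sum_mul]
  refine Finset.sum_congr rfl fun s hs => ?_
  rw [(Finset.mem_filter.1 hs).2]

theorem nrm_zero [Fintype K] (N : MvPolynomial (Fin 3) K) (d : ℕ)
    (hN : ∀ s ∈ N.support, Nrm (Fintype.card K) (s 0) (s 1) (s 2) ∧ s 0 + s 1 + s 2 = d)
    (h0 : ∀ x : Fin 3 → K, eval x N = 0) : N = 0 := by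
  classical
  have hev : ∀ x y z : K, ∑ s ∈ N.support, N.coeff s * x ^ s 0 * y ^ s 1 * z ^ s 2 = 0 := by
    intro x y z
    rw [← h0 ![x, y, z], eval_eq']
    refine Finset.sum_congr rfl fun s _ => ?_
    rw [Fin.prod_univ_three]
    simp only [Matrix.cons_val_zero, Matrix.cons_val_one, Matrix.cons_val]
    ring
  have hext : ∀ s ∈ N.support, ∀ t ∈ N.support, s 0 = t 0 → s 1 = t 1 → s = t := by
    intro s hs t ht e0 e1
    have := (hN s hs).2
    have := (hN t ht).2
    ext i
    fin_cases i
    · exact e0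
    · exact e1
    · show s 2 = t 2
      omega
  -- no power of the first variable
  have s1 : ∀ s ∈ N.support, ¬ (s 1 = 0 ∧ s 2 = 0) := by
    rintro s hs ⟨e1, e2⟩
    have h1 := hev 1 0 0
    rw [Finset.sum_eq_single s] at h1
    · rw [e1, e2, one_pow, pow_zero, mul_one, mul_one, mul_one] at h1
      exact (mem_support_iff.1 hs) h1
    · intro t ht hts
      by_cases hz : t 1 = 0
      · have hz2 : t 2 ≠ 0 := by
          intro hz2
          have h3 := (hN s hs).2
          have h4 := (hN t ht).2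
          exact hts (hext t ht s hs (by omega) (by omega))
        rw [zero_pow hz2, mul_zero]
      · rw [zero_pow hz, mul_zero, zero_mul]
    · intro h2
      exact absurd hs h2
  -- the third variable occurs
  have s2 : ∀ s ∈ N.support, s 2 ≠ 0 := by
    intro s hs e2
    have h1 : ∀ x : K, ∑ t ∈ N.support.filter (fun t => t 2 = 0), N.coeff t * x ^ t 0 = 0 := by
      intro x
      rw [← hev x 1 0, Finset.sum_filter]
      refine Finset.sum_congr rfl fun t _ => ?_
      split_ifs with ht
      · rw [ht, pow_zero, one_pow, mul_one, mul_one]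
      · rw [zero_pow ht, mul_zero]
    have h2 := uni_fin _ (fun t => N.coeff t) (fun t => t 0) (fun t ht => by
      have h3 := Finset.mem_filter.1 ht
      refine (hN t h3.1).1.1 (Or.inl fun h4 => ?_)
      exact s1 t h3.1 ⟨h4, h3.2⟩) h1 (s 0) (by
      refine (hN s hs).1.1 (Or.inl fun h4 => ?_)
      exact s1 s hs ⟨h4, e2⟩)
    have h5 : (N.support.filter (fun t => t 2 = 0)).filter (fun t => t 0 = s 0) = {s} := by
      ext t
      rw [Finset.mem_filter, Finset.mem_filter, Finset.mem_singleton]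
      constructor
      · rintro ⟨⟨ht, ht2⟩, ht0⟩
        have h3 := (hN s hs).2
        have h4 := (hN t ht).2
        exact hext t ht s hs ht0 (by omega)
      · rintro rfl
        exact ⟨⟨hs, e2⟩, rfl⟩
    rw [h5, Finset.sum_singleton] at h2
    exact (mem_support_iff.1 hs) h2
  by_contra hne
  obtain ⟨s, hs⟩ : N.support.Nonempty := by
    rw [Finset.nonempty_iff_ne_empty]
    intro h1
    exact hne (support_eq_empty.1 h1)
  have h1 : ∀ t ∈ N.support, t 0 < Fintype.card K ∧ t 1 < Fintype.card K := fun t ht =>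
    ⟨(hN t ht).1.1 (Or.inr (s2 t ht)), (hN t ht).1.2 (s2 t ht)⟩
  have h2 : ∀ y : K, ∑ t ∈ N.support.filter (fun t => t 0 = s 0), N.coeff t * y ^ t 1 = 0 := by
    intro y
    refine uni_fin N.support (fun t => N.coeff t * y ^ t 1) (fun t => t 0) (fun t ht => (h1 t ht).1)
      ?_ (s 0) (h1 s hs).1
    intro x
    rw [← hev x y 1]
    refine Finset.sum_congr rfl fun t _ => ?_
    rw [one_pow]
    ring
  have h3 := uni_fin _ (fun t => N.coeff t) (fun t => t 1)
    (fun t ht => (h1 t (Finset.mem_filter.1 ht).1).2) h2 (s 1) (h1 s hs).2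
  have h5 : (N.support.filter (fun t => t 0 = s 0)).filter (fun t => t 1 = s 1) = {s} := by
    ext t
    rw [Finset.mem_filter, Finset.mem_filter, Finset.mem_singleton]
    constructor
    · rintro ⟨⟨ht, ht0⟩, ht1⟩
      exact hext t ht s hs ht0 ht1
    · rintro rfl
      exact ⟨⟨hs, rfl⟩, rfl⟩
  rw [h5, Finset.sum_singleton] at h3
  exact (mem_support_iff.1 hs) h3

theorem mr3_core [Fintype K] (g : MvPolynomial (Fin 3) K) (d : ℕ) (hg : g.IsHomogeneous d)
    (h0 : ∀ x : Fin 3 → K, eval x g = 0) :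
    ∃ v : Fin 3 → MvPolynomial (Fin 3) K, D3 v = g ∧ (g ≠ 0 → Fintype.card K + 1 ≤ d) ∧
      ∀ i, (v i).IsHomogeneous (d - (Fintype.card K + 1)) := by
  classical
  have hs : ∀ s ∈ g.support, s 0 + s 1 + s 2 = d := by
    intro s hs
    have h1 := hg (mem_support_iff.1 hs)
    rw [← h1, Finsupp.weight_apply, Finsupp.sum_fintype _ _ (fun i => by rw [zero_smul]),
      Fin.sum_univ_three]
    simp
  choose v a b c hv hd hN he using fun s : Fin 3 →₀ ℕ =>
    red (K := K) (2 * s 0 + s 1) (s 0) (s 1) (s 2) le_rfl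
  let V : Fin 3 → MvPolynomial (Fin 3) K := ∑ s ∈ g.support, (C (g.coeff s) : MvPolynomial (Fin 3) K) • v s
  let N : MvPolynomial (Fin 3) K := ∑ s ∈ g.support, C (g.coeff s) * mon K (a s) (b s) (c s)
  have hgV : g = D3 V + N := by
    show g = D3 (∑ s ∈ g.support, (C (g.coeff s) : MvPolynomial (Fin 3) K) • v s) +
      ∑ s ∈ g.support, C (g.coeff s) * mon K (a s) (b s) (c s)
    rw [D3_sum, ← Finset.sum_add_distrib]
    conv_lhs => rw [g.as_sum]
    refine Finset.sum_congr rfl fun s _ => ?_
    rw [D3_smul, ← mul_add, ← he s, mon_eq, C_mul_monomial, mul_one]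
  have hV : ∀ i, (V i).IsHomogeneous (d - (Fintype.card K + 1)) := by
    intro i
    have e1 : V i = ∑ s ∈ g.support, C (g.coeff s) * v s i := by
      show (∑ s ∈ g.support, (C (g.coeff s) : MvPolynomial (Fin 3) K) • v s) i = _
      rw [Finset.sum_apply]
      rfl
    rw [e1]
    refine IsHomogeneous.sum _ _ _ fun s hs' => ?_
    have e2 := (isHomogeneous_C (Fin 3) (g.coeff s)).mul (hv s i)
    rw [zero_add, hs s hs'] at e2
    exact e2
  have hN0 : N = 0 := by
    refine nrm_zero N d ?_ ?_
    · intro t ht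
      rw [mem_support_iff] at ht
      obtain ⟨s, hs', hne⟩ : ∃ s ∈ g.support, (C (g.coeff s) * mon K (a s) (b s) (c s)).coeff t ≠ 0 := by
        by_contra hcon
        push Not at hcon
        apply ht
        show (∑ s ∈ g.support, C (g.coeff s) * mon K (a s) (b s) (c s)).coeff t = 0
        rw [coeff_sum]
        exact Finset.sum_eq_zero hcon
      let u : Fin 3 →₀ ℕ := Finsupp.equivFunOnFinite.symm ![a s, b s, c s]
      have hu : mon K (a s) (b s) (c s) = monomial u 1 := mon_eq u
      rw [hu, C_mul_monomial, coeff_monomial] at hne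
      have hut : u = t := by
        by_contra h1
        rw [if_neg h1] at hne
        exact hne rfl
      have t0 : t 0 = a s := by rw [← hut]; rfl
      have t1 : t 1 = b s := by rw [← hut]; rfl
      have t2 : t 2 = c s := by rw [← hut]; rfl
      rw [t0, t1, t2]
      exact ⟨hN s, (hd s).trans (hs s hs')⟩
    · intro x
      have e1 := h0 x
      rw [hgV, map_add, D3_eval, zero_add] at e1
      exact e1
  rw [hN0, add_zero] at hgV
  refine ⟨V, hgV.symm, fun hne => ?_, hV⟩
  by_contra hlt
  have e1 : d - (Fintype.card K + 1) = 0 := by omega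
  rw [e1] at hV
  have e2 := D3_hom V 0 hV
  rw [← hgV, zero_add] at e2
  have e3 := hg.inj_right e2 hne
  omega

end

end Pool.Agent.H6.TC
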