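import Pool.Agent.H77.TF.Stm3
import Pool.Agent.H6.TC.Mr3

/-!
# MR3: the statement of the project
-/

set_option autoImplicit false

namespace Pool.Agent.H6.TC

open Pool.Agent.H77.TF

theorem mr3 : S_MR3 := fun _ _ _ g d hg h0 => mr3_core g d hg h0

end Pool.Agent.H6.TC
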